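import Pool.Agent.R532.Wa9

/-!
# The analogue of `G(k)` for generic real coefficients has order of magnitude `k`
-/

set_option autoImplicit false

namespace Pool.Agent.Results.MP_45c923_nt.GenericCoefficients

open MeasureTheory Pool.Agent.R532.Wa

theorem result : ∀ᵐ l ∂seqLaw, ∀ k : ℕ, 1 ≤ k →
    (∀ s, 2 * k + 1 ≤ s → Reach k l s) ∧ (∀ s, s ≤ k → ¬ Reach k l s) ∧
      k + 1 ≤ genG k l ∧ genG k l ≤ 2 * k + 1 :=
  seq_main

end Pool.Agent.Results.MP_45c923_nt.GenericCoefficients
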